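import Pool.Agent.Helper19.HN.St

/-! # HN, module LDF: properties of a least upper bound are definable -/

namespace Pool.Agent.Helper17.HN.LDF

open Ordinal Cardinal ZFSet Order Pool.Agent.Helper73.HODC Pool.Agent.Helper73.HM
open Pool.Agent.Helper73.HE Pool.Agent.Helper73.HU Pool.Agent.Helper19.HN

/-- the value at `g` of the function coded by `F` -/
noncomputable def ap (F : ZFSet.{0}) (g : Ordinal.{0}) : ZFSet.{0} :=
  ZFSet.sUnion (ZFSet.sep (fun y => ∃ e : ZFSet.{0}, e.rank = g ∧ ZFSet.pair e y ∈ F)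
    (ZFSet.sUnion (ZFSet.sUnion F)))

theorem mem_ap {F z : ZFSet.{0}} {g : Ordinal.{0}} : z ∈ ap F g ↔
    ∃ y e : ZFSet.{0}, (e.rank = g ∧ ZFSet.pair e y ∈ F) ∧ z ∈ y := by
  rw [ap, ZFSet.mem_sUnion]
  constructor
  · rintro ⟨y, hy, hz⟩
    rw [ZFSet.mem_sep] at hy
    obtain ⟨-, e, he⟩ := hy
    exact ⟨y, e, he, hz⟩
  · rintro ⟨y, e, he, hz⟩
    refine ⟨y, ZFSet.mem_sep.2 ⟨?_, e, he⟩, hz⟩
    refine ZFSet.mem_sUnion.2 ⟨{e, y}, ZFSet.mem_sUnion.2 ⟨_, he.2, ?_⟩, ?_⟩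
    · simp [ZFSet.pair]
    · simp

theorem exists_ap (τ : Ordinal.{0}) (U : Ordinal.{0} → ZFSet.{0}) :
    ∃ F : ZFSet.{0}, ∀ g < τ, ap F g = U g := by
  refine ⟨gr τ U, fun g hg => ?_⟩
  ext z
  rw [mem_ap]
  constructor
  · rintro ⟨y, e, ⟨he, hF⟩, hz⟩
    obtain ⟨a, ha⟩ := ZFSet.mem_range.1 hF
    obtain ⟨h1, h2⟩ := ZFSet.pair_injective ha
    rw [← h1, rank_toZFSet] at he
    rw [← h2, he] at hz
    exact hz
  · intro hz
    exact ⟨U g, g.toZFSet, ⟨rank_toZFSet g, ZFSet.mem_range.2 ⟨⟨g, hg⟩, rfl⟩⟩, hz⟩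

theorem dp_ap (i j k : ℕ) : DP (fun v => v k = ap (v i) (v j).rank) := by
  refine (DP.all (Q := fun z v => z ∈ v k ↔ ∃ y e : ZFSet.{0}, (e.rank = (v j).rank ∧
    ZFSet.pair e y ∈ v i) ∧ z ∈ y) ?_).congr fun v => ?_
  · refine (DP.mem 0 (k + 1)).iff ?_
    refine DP.ex (Q := fun y v => ∃ e : ZFSet.{0}, (e.rank = (v (j + 1)).rank ∧
      ZFSet.pair e y ∈ v (i + 1)) ∧ v 0 ∈ y) ?_
    refine DP.ex (Q := fun e v => (e.rank = (v (j + 2)).rank ∧
      ZFSet.pair e (v 0) ∈ v (i + 2)) ∧ v 1 ∈ v 0) ?_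
    exact ((DP.rank_eq 0 (j + 3)).and (DP.of (dn_dfn_pair_mem 0 1 (i + 3)))).and (DP.mem 2 1)
  · constructor
    · intro h z
      rw [h, mem_ap]
    · intro h
      ext z
      rw [h z, mem_ap]

theorem dp_ltCutAp (i j k : ℕ) : DP (fun v => Pool.Agent.Helper19.HN.lt (v i).rank
    (cut (v j) (v i).rank) (ap (v k) (v i).rank)) := by
  refine (DP.ex (Q := fun x v => x = cut (v j) (v i).rank ∧ ∃ y, y = ap (v k) (v i).rank ∧
    Pool.Agent.Helper19.HN.lt (v i).rank x y) ?_).congr fun v => ?_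
  · refine (dp_cut (j + 1) (i + 1) 0).and ?_
    refine DP.ex (Q := fun y v => y = ap (v (k + 1)) (v (i + 1)).rank ∧
      Pool.Agent.Helper19.HN.lt (v (i + 1)).rank (v 0) y) ?_
    exact (dp_ap (k + 2) (i + 2) 0).and (dp_lt (i + 2) 1 0)
  · constructor
    · intro h
      exact ⟨_, rfl, _, rfl, h⟩
    · rintro ⟨_, rfl, _, rfl, h⟩
      exact h

theorem dp_ltApAp (i j k : ℕ) : DP (fun v => Pool.Agent.Helper19.HN.lt (v i).rank
    (ap (v j) (v i).rank) (ap (v k) (v i).rank)) := by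
  refine (DP.ex (Q := fun x v => x = ap (v j) (v i).rank ∧ ∃ y, y = ap (v k) (v i).rank ∧
    Pool.Agent.Helper19.HN.lt (v i).rank x y) ?_).congr fun v => ?_
  · refine (dp_ap (j + 1) (i + 1) 0).and ?_
    refine DP.ex (Q := fun y v => y = ap (v (k + 1)) (v (i + 1)).rank ∧
      Pool.Agent.Helper19.HN.lt (v (i + 1)).rank (v 0) y) ?_
    exact (dp_ap (k + 2) (i + 2) 0).and (dp_lt (i + 2) 1 0)
  · constructor
    · intro h
      exact ⟨_, rfl, _, rfl, h⟩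
    · rintro ⟨_, rfl, _, rfl, h⟩
      exact h

theorem dp_Ub {A : Set Ordinal.{0}} (hA : DPs A) {K : ZFSet.{0} → Prop}
    (hK : DP (fun v => K (v 0))) (τ : Ordinal.{0}) (i : ℕ) :
    DP (fun v => Ub τ A K (ap (v i))) := by
  refine DP.all (Q := fun x v => K x → AE τ A (fun g =>
    Pool.Agent.Helper19.HN.lt g (cut x g) (ap (v i) g))) ?_
  refine hK.imp ?_
  exact dp_AEc (Q := fun g v => Pool.Agent.Helper19.HN.lt g (cut (v 0) g) (ap (v (i + 1)) g)) hA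
    (dp_ltCutAp 0 1 (i + 2)) τ

theorem Ub_congr {τ : Ordinal.{0}} {A : Set Ordinal.{0}} {K : ZFSet.{0} → Prop}
    {U U' : Ordinal.{0} → ZFSet.{0}} (h : Ub τ A K U) (hU : ∀ g < τ, U' g = U g) :
    Ub τ A K U' := by
  intro x hx
  refine (h x hx).mono fun g _ hg hlt => ?_
  rw [hU g hg]
  exact hlt

theorem Lub_congr {τ : Ordinal.{0}} {A : Set Ordinal.{0}} {K : ZFSet.{0} → Prop}
    {U U' : Ordinal.{0} → ZFSet.{0}} (h : Lub τ A K U) (hU : ∀ g < τ, U' g = U g) :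
    Lub τ A K U' := by
  refine ⟨Ub_congr h.1 hU, fun W hW => ?_⟩
  refine (h.2 W hW).mono fun g _ hg hlt => ?_
  rw [hU g hg]
  exact hlt

theorem Lub_iff {τ : Ordinal.{0}} {A : Set Ordinal.{0}} {K : ZFSet.{0} → Prop}
    {U : Ordinal.{0} → ZFSet.{0}} : Lub τ A K U ↔ Ub τ A K U ∧ ∀ F : ZFSet.{0},
      Ub τ A K (ap F) → AE τ A (fun g => ¬ Pool.Agent.Helper19.HN.lt g (ap F g) (U g)) := by
  constructor
  · intro h
    exact ⟨h.1, fun F hF => h.2 _ hF⟩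
  · rintro ⟨h1, h2⟩
    refine ⟨h1, fun W hW => ?_⟩
    obtain ⟨F, hF⟩ := exists_ap τ W
    refine (h2 F (Ub_congr hW hF)).mono fun g _ hg hlt => ?_
    rw [← hF g hg]
    exact hlt

theorem dp_Lub {A : Set Ordinal.{0}} (hA : DPs A) {K : ZFSet.{0} → Prop}
    (hK : DP (fun v => K (v 0))) (τ : Ordinal.{0}) (i : ℕ) :
    DP (fun v => Lub τ A K (ap (v i))) := by
  refine DP.congr ?_ fun v => Lub_iff
  refine (dp_Ub hA hK τ i).and ?_
  refine DP.all (Q := fun F v => Ub τ A K (ap F) → AE τ A (fun g =>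
    ¬ Pool.Agent.Helper19.HN.lt g (ap F g) (ap (v i) g))) ?_
  refine (dp_Ub hA hK τ 0).imp ?_
  exact dp_AEc (Q := fun g v => ¬ Pool.Agent.Helper19.HN.lt g (ap (v 0) g) (ap (v (i + 1)) g)) hA
    (dp_ltApAp 0 1 (i + 2)).not τ

/-- two least upper bounds agree almost everywhere where one of them is in `hodPow g` -/
theorem Lub_unique {τ : Ordinal.{0}} {A : Set Ordinal.{0}} {K : ZFSet.{0} → Prop}
    {U U' : Ordinal.{0} → ZFSet.{0}} (hτ : ℵ₀ < τ.cof) (h : Lub τ A K U) (h' : Lub τ A K U') :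
    AE τ A (fun g => U g ∈ hodPow g → U' g = U g) := by
  refine ((h.2 U' h'.1).and hτ (h'.2 U h.1)).mono fun g _ _ h1 h2 => ?_
  rcases lt_tri (y := U' g) h2 with h3 | h3 | h3
  · exact absurd h3 h1.2
  · exact h3.symm
  · exact absurd h3 h1.1

theorem ldf : StLDF := by
  intro τ A K U P hτ hA hK hU hP
  have key : ∀ v : ℕ → ZFSet.{0}, Stat {g | g ∈ A ∧ U g ∈ hodPow g ∧ P g (U g) v} τ ↔
      ∃ F : ZFSet.{0}, Lub τ A K (ap F) ∧
        Stat {g | g ∈ A ∧ ap F g ∈ hodPow g ∧ P g (ap F g) v} τ := by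
    intro v
    constructor
    · intro h
      obtain ⟨F, hF⟩ := exists_ap τ U
      refine ⟨F, Lub_congr hU hF, h.mono fun g hg hgτ => ?_⟩
      rw [Set.mem_ofPred_eq, hF g hgτ]
      exact hg
    · rintro ⟨F, hF, h⟩
      refine (stat_AE hτ h (fun a ha => ha.1) (Lub_unique hτ hF hU)).mono fun g hg _ => ?_
      obtain ⟨⟨h1, h2, h3⟩, h4⟩ := hg
      have h5 := h4 h2
      rw [Set.mem_ofPred_eq, h5]
      exact ⟨h1, h2, h3⟩
  refine DP.congr ?_ key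
  refine DP.ex (Q := fun F v => Lub τ A K (ap F) ∧
    Stat {g | g ∈ A ∧ ap F g ∈ hodPow g ∧ P g (ap F g) v} τ) ?_
  refine (dp_Lub hA hK τ 0).and ?_
  refine dp_stat (Q := fun g v => g ∈ A ∧ ap (v 0) g ∈ hodPow g ∧
    P g (ap (v 0) g) (fun n => v (n + 1))) ?_ τ
  refine (DPs.at hA 0).and ?_
  refine (DP.ex (Q := fun y v => y = ap (v 1) (v 0).rank ∧ y ∈ hodPow (v 0).rank ∧
    P (v 0).rank y (fun n => v (n + 2))) ?_).congr fun v => ?_
  · refine (dp_ap 2 1 0).and ((dp_hodPow 0 1).and ?_)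
    exact hP.rename (fun n => if n = 0 then 1 else if n = 1 then 0 else n + 1)
  · constructor
    · intro h
      exact ⟨_, rfl, h⟩
    · rintro ⟨_, rfl, h⟩
      exact h

end Pool.Agent.Helper17.HN.LDF
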